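import Pool.Agent.Q301.MA.Polar
set_option autoImplicit false

/-!
# The fixed points of the mean-Aluthge transform are the quasi-normal operators

For a bounded operator `T` on a complex Hilbert space with canonical polar decomposition
`T = V |T|` let `Δ(T) = |T|^(1/2) V |T|^(1/2)` be its Aluthge transform and let
`(V |T| + |T| V) / 2` be its mean transform. An operator `T` is a fixed point of
`T ↦` (mean transform of `Δ(T)`) if and only if it is quasi-normal.
-/

namespace Pool.Agent.Results.MP_3feef6_an.FixedPointsQuasiNormal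

open Pool.Agent.Q301.MA

variable {H : Type*} [NormedAddCommGroup H] [InnerProductSpace ℂ H] [CompleteSpace H]

/-- `V` is the partial isometry of the canonical polar decomposition `T = V |T|`. -/
structure IsPolarPart (T V : H →L[ℂ] H) : Prop where
  eq : T = V * CFC.abs T
  partial_isometry : V * star V * V = V
  ker : ∀ x, V x = 0 ↔ T x = 0

lemma pol_iff {T V : H →L[ℂ] H} : Pol T V (CFC.abs T) ↔ IsPolarPart T V :=
  ⟨fun h => ⟨h.eq, h.pi, h.ker⟩,
    fun h => ⟨CFC.abs_nonneg T, CFC.abs_mul_abs T, h.eq, h.partial_isometry, h.ker⟩⟩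

theorem existsUnique_polarPart (T : H →L[ℂ] H) : ∃! V, IsPolarPart T V := by
  obtain ⟨V, hV⟩ := exists_pol T (CFC.abs T) (CFC.abs_nonneg T) (CFC.abs_mul_abs T)
  exact ⟨V, pol_iff.1 hV, fun V' hV' => unique_pol (pol_iff.2 hV') hV⟩

/-- the partial isometry of the canonical polar decomposition -/
noncomputable def polarPart (T : H →L[ℂ] H) : H →L[ℂ] H :=
  Classical.choose (existsUnique_polarPart T).exists

lemma polarPart_spec (T : H →L[ℂ] H) : IsPolarPart T (polarPart T) :=
  Classical.choose_spec (existsUnique_polarPart T).exists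

/-- the Aluthge transform -/
noncomputable def aluthge (T : H →L[ℂ] H) : H →L[ℂ] H :=
  CFC.sqrt (CFC.abs T) * polarPart T * CFC.sqrt (CFC.abs T)

/-- the mean transform -/
noncomputable def meanTransform (T : H →L[ℂ] H) : H →L[ℂ] H :=
  (1 / 2 : ℂ) • (polarPart T * CFC.abs T + CFC.abs T * polarPart T)

/-- the mean-Aluthge transform -/
noncomputable def meanAluthge (T : H →L[ℂ] H) : H →L[ℂ] H := meanTransform (aluthge T)

/-- `T` commutes with `T* T` -/
def QuasiNormal (T : H →L[ℂ] H) : Prop := T * (star T * T) = star T * T * T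

/-- The fixed points of the mean-Aluthge transform are exactly the quasi-normal operators. -/
theorem result (T : H →L[ℂ] H) : meanAluthge T = T ↔ QuasiNormal T := by
  have hT : Pol T (polarPart T) (CFC.abs T) := pol_iff.2 (polarPart_spec T)
  have hA : 0 ≤ CFC.sqrt (CFC.abs T) := CFC.sqrt_nonneg _
  have hAP : CFC.sqrt (CFC.abs T) * CFC.sqrt (CFC.abs T) = CFC.abs T :=
    CFC.sqrt_mul_sqrt_self _ (CFC.abs_nonneg T)
  have hS : Pol (CFC.sqrt (CFC.abs T) * polarPart T * CFC.sqrt (CFC.abs T))
      (polarPart (aluthge T)) (CFC.abs (aluthge T)) := pol_iff.2 (polarPart_spec (aluthge T))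
  have h1 : polarPart (aluthge T) * CFC.abs (aluthge T) =
      CFC.sqrt (CFC.abs T) * polarPart T * CFC.sqrt (CFC.abs T) := hS.eq.symm
  have h2 : meanAluthge T = T ↔ T + T = CFC.sqrt (CFC.abs T) * polarPart T *
      CFC.sqrt (CFC.abs T) + CFC.abs (aluthge T) * polarPart (aluthge T) := by
    unfold meanAluthge meanTransform
    rw [h1]
    constructor
    · intro h
      conv_lhs => rw [← h]
      rw [← add_smul]
      norm_num
    · intro h
      rw [← h, ← two_smul ℂ T, smul_smul]
      norm_num
  rw [h2]
  exact ⟨forward hT hA hAP hS, backward hT hA hAP hS⟩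

end Pool.Agent.Results.MP_3feef6_an.FixedPointsQuasiNormal
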